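import Mathlib
import Pool.Agent.Helper799.OB12

set_option autoImplicit false

namespace Pool.Agent.Results.MP_abd417_co.Superlinear

open Filter Topology

/-- the orthonormal bases contained in a finite set `V` of vectors of `ℝ³`: the 3-element subsets of
`V` whose elements are pairwise orthogonal (for `V` a set of unit vectors these are exactly the
unordered orthonormal bases in `V`). -/
noncomputable def orthonormalBases (V : Finset (EuclideanSpace ℝ (Fin 3))) :
    Finset (Finset (EuclideanSpace ℝ (Fin 3))) := by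
  classical
  exact (V.powersetCard 3).filter (fun B => ∀ u ∈ B, ∀ v ∈ B, u ≠ v → inner ℝ u v = 0)

/-- `M n`: the maximum number of orthonormal bases in a set of `n` distinct unit vectors of `ℝ³`. -/
noncomputable def M (n : ℕ) : ℕ :=
  sSup {b : ℕ | ∃ V : Finset (EuclideanSpace ℝ (Fin 3)),
    V.card = n ∧ (∀ v ∈ V, ‖v‖ = 1) ∧ b = (orthonormalBases V).card}

theorem M_eq (n : ℕ) : M n = Pool.Agent.Helper799.OB.maxBases n := rfl

/-- `M(n) ≥ n * exp(c (log n)^{1/3} / log log n)` for all large `n`; in particular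
`M(n) ≥ n (log n)^A` for every `A` and all large `n`, and `M(n) / n → ∞`. -/
theorem result :
    (∃ c : ℝ, 0 < c ∧ ∀ᶠ n : ℕ in atTop,
      (n : ℝ) * Real.exp (c * Real.log n ^ (1 / 3 : ℝ) / Real.log (Real.log n)) ≤ M n) ∧
    (∀ A : ℝ, ∀ᶠ n : ℕ in atTop, (n : ℝ) * Real.log n ^ A ≤ M n) ∧
    Tendsto (fun n : ℕ => (M n : ℝ) / n) atTop atTop := by
  have h1 := Pool.Agent.Helper799.OB.stepB
  have hL : Tendsto (fun n : ℕ => Real.log (n : ℝ)) atTop atTop :=
    Real.tendsto_log_atTop.comp tendsto_natCast_atTop_atTop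
  have h2 : ∀ A : ℝ, ∀ᶠ n : ℕ in atTop, (n : ℝ) * Real.log n ^ A ≤ M n := by
    intro A
    have hsm : ∀ᶠ x : ℝ in atTop, Real.log x ≤ x ^ (1 / 6 : ℝ) / (400 * (|A| + 1)) := by
      have h := isLittleO_log_rpow_atTop (show (0 : ℝ) < 1 / 6 by norm_num)
      have hpos : (0 : ℝ) < 1 / (400 * (|A| + 1)) := by positivity
      filter_upwards [h.bound hpos, eventually_ge_atTop 1] with x hx hx1
      rw [Real.norm_of_nonneg (Real.log_nonneg hx1), Real.norm_of_nonneg (by positivity)] at hx
      calc Real.log x ≤ 1 / (400 * (|A| + 1)) * x ^ (1 / 6 : ℝ) := hx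
        _ = _ := by ring
    filter_upwards [h1, hL.eventually hsm, hL.eventually_ge_atTop (Real.exp 1)] with n a1 a2 a3
    rw [M_eq]
    refine le_trans ?_ a1
    set L := Real.log (n : ℝ) with hLd
    have hL0 : 0 < L := (Real.exp_pos 1).trans_le a3
    have hlL : 1 ≤ Real.log L := by rw [Real.le_log_iff_exp_le hL0]; exact a3
    have hn0 : (0 : ℝ) ≤ n := Nat.cast_nonneg n
    apply mul_le_mul_of_nonneg_left _ hn0
    rw [Real.rpow_def_of_pos hL0]
    apply Real.exp_le_exp.2
    have hA0 : 0 ≤ |A| := abs_nonneg A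
    have hsq : (L ^ (1 / 6 : ℝ)) * (L ^ (1 / 6 : ℝ)) = L ^ (1 / 3 : ℝ) := by
      rw [← Real.rpow_add hL0]; norm_num
    have hR6 : 0 ≤ L ^ (1 / 6 : ℝ) := by positivity
    have h3 : Real.log L * (400 * (|A| + 1)) ≤ L ^ (1 / 6 : ℝ) := by
      rwa [le_div_iff₀ (by positivity)] at a2
    rw [le_div_iff₀ (by linarith)]
    have h4 : Real.log L * A ≤ Real.log L * (|A| + 1) := by
      apply mul_le_mul_of_nonneg_left _ (by linarith)
      linarith [le_abs_self A]
    have h5 : (400 * Real.log L) * (Real.log L * (|A| + 1)) ≤ L ^ (1 / 3 : ℝ) := by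
      rw [← hsq]
      have h6 : 400 * Real.log L ≤ L ^ (1 / 6 : ℝ) := by nlinarith
      have h7 : Real.log L * (|A| + 1) ≤ L ^ (1 / 6 : ℝ) := by nlinarith
      apply mul_le_mul h6 h7 (by positivity) hR6
    nlinarith
  refine ⟨⟨1 / 400, by norm_num, ?_⟩, h2, ?_⟩
  · filter_upwards [h1] with n a1
    rw [M_eq]
    refine le_trans (le_of_eq ?_) a1
    congr 2
    rw [div_mul_eq_div_div]
    ring
  · have h3 := h2 1
    refine tendsto_atTop_mono' atTop ?_ hL
    filter_upwards [h3, eventually_gt_atTop 0] with n a1 a2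
    have hn : (0 : ℝ) < n := by exact_mod_cast a2
    rw [le_div_iff₀ hn]
    rw [Real.rpow_one] at a1
    linarith

end Pool.Agent.Results.MP_abd417_co.Superlinear
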